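import Pool.Agent.H741.RS.Stm

/-!
# Project RS, task LAM: the factor is constant
-/

set_option autoImplicit false
open scoped ComplexConjugate

namespace Pool.Agent.H28.RS

open Pool.Agent.H741.RS MvPolynomial

/-- the components of a vector of `ℂ × ℂᴺ` -/
noncomputable def cp {N : ℕ} (X : ℂ × V N) : Fin (N + 1) → ℂ := Fin.cons X.1 (fun i => X.2 i)

lemma cp_zero {N : ℕ} (X : ℂ × V N) : cp X 0 = X.1 := rfl

lemma cp_succ {N : ℕ} (X : ℂ × V N) (i : Fin N) : cp X i.succ = X.2 i := rfl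

lemma cp_ext {N : ℕ} {X Y : ℂ × V N} (h : ∀ i, cp X i = cp Y i) : X = Y := by
  refine Prod.ext (h 0) ?_
  ext i
  exact h i.succ

lemma cp_smul {N : ℕ} (c : ℂ) (X : ℂ × V N) (i : Fin (N + 1)) : cp (c • X) i = c * cp X i := by
  refine Fin.cases ?_ (fun j => ?_) i
  · rfl
  · rfl

lemma cp_add {N : ℕ} (X Y : ℂ × V N) (i : Fin (N + 1)) : cp (X + Y) i = cp X i + cp Y i := by
  refine Fin.cases ?_ (fun j => ?_) i
  · rfl
  · rfl

/-- the components as linear maps -/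
noncomputable def cl {N : ℕ} (i : Fin (N + 1)) : (ℂ × V N) →ₗ[ℂ] ℂ where
  toFun X := cp X i
  map_add' X Y := cp_add X Y i
  map_smul' c X := cp_smul c X i

lemma norm_sq_le {N : ℕ} (X : ℂ × V N) : ‖X‖ ^ 2 ≤ ∑ i, ‖cp X i‖ ^ 2 := by
  rw [Fin.sum_univ_succ]
  simp only [cp_zero, cp_succ]
  rw [← EuclideanSpace.norm_sq_eq X.2, Prod.norm_def]
  rcases max_choice ‖X.1‖ ‖X.2‖ with h | h <;> rw [h]
  · linarith [sq_nonneg ‖X.2‖]
  · linarith [sq_nonneg ‖X.1‖]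

lemma norm_cp_le {N : ℕ} (X : ℂ × V N) (i : Fin (N + 1)) : ‖cp X i‖ ≤ ‖X‖ := by
  refine Fin.cases ?_ (fun j => ?_) i
  · exact norm_fst_le X
  · exact (PiLp.norm_apply_le X.2 j).trans (norm_snd_le X)

/-- expansion of a linear functional -/
lemma expand {N : ℕ} (Ψ : (ℂ × V N) →ₗ[ℂ] ℂ) (Y : ℂ × V N) :
    Ψ Y = Ψ (1, 0) * Y.1 + ∑ j, Ψ (0, EuclideanSpace.single j 1) * Y.2 j := by
  have h : Y = Y.1 • ((1 : ℂ), (0 : V N)) +
      ∑ j, Y.2 j • ((0 : ℂ), (EuclideanSpace.single j 1 : V N)) := by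
    refine Prod.ext ?_ ?_
    · simp [Prod.fst_sum]
    · simp only [Prod.snd_add, Prod.smul_snd, smul_zero, zero_add, Prod.snd_sum]
      ext i
      simp [Pi.single_apply]
  conv_lhs => rw [h]
  rw [map_add, map_smul, map_sum]
  simp only [map_smul, smul_eq_mul]
  rw [mul_comm]
  congr 1
  exact Finset.sum_congr rfl fun j _ => mul_comm _ _

/-- the polynomial `z ↦ Φ (1, z)` -/
noncomputable def lp {n : ℕ} (Φ : (ℂ × V n) →ₗ[ℂ] ℂ) : MvPolynomial (Fin n) ℂ :=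
  C (Φ (1, 0)) + ∑ j, C (Φ (0, EuclideanSpace.single j 1)) * X j

lemma ev_lp {n : ℕ} (Φ : (ℂ × V n) →ₗ[ℂ] ℂ) (z : V n) : ev (lp Φ) z = Φ (1, z) := by
  rw [expand Φ (1, z)]
  unfold ev lp
  simp [map_sum]

/-- the polynomial `z ↦ Ψ (F z)` -/
noncomputable def rp {n N : ℕ} (f : RSM n N) (Ψ : (ℂ × V N) →ₗ[ℂ] ℂ) : MvPolynomial (Fin n) ℂ :=
  C (Ψ (1, 0)) * f.q + ∑ j, C (Ψ (0, EuclideanSpace.single j 1)) * f.p j

lemma ev_rp {n N : ℕ} (f : RSM n N) (Ψ : (ℂ × V N) →ₗ[ℂ] ℂ) (z : V n) :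
    ev (rp f Ψ) z = Ψ (f.F z) := by
  rw [expand Ψ (f.F z)]
  unfold RSM.F ev rp
  simp [map_sum]

/-- the homogenised polynomial -/
noncomputable def hom {n : ℕ} (A : (ℂ × V n) →ₗ[ℂ] (ℂ × V n)) (P : MvPolynomial (Fin n) ℂ) (d : ℕ) :
    MvPolynomial (Fin n) ℂ :=
  ∑ α ∈ P.support, C (coeff α P) * lp (cl 0 ∘ₗ A) ^ (d - ∑ i, α i) *
    ∏ i : Fin n, lp (cl i.succ ∘ₗ A) ^ α i

lemma ev_hom {n : ℕ} (A : (ℂ × V n) →ₗ[ℂ] (ℂ × V n)) (P : MvPolynomial (Fin n) ℂ) (d : ℕ) (z : V n) :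
    ev (hom A P d) z = ∑ α ∈ P.support, coeff α P * (A (1, z)).1 ^ (d - ∑ i, α i) *
      ∏ i : Fin n, ((A (1, z)).2 i) ^ α i := by
  have e0 : ev (lp (cl 0 ∘ₗ A)) z = (A (1, z)).1 := ev_lp _ _
  have es : ∀ i : Fin n, ev (lp (cl i.succ ∘ₗ A)) z = (A (1, z)).2 i := fun i => ev_lp _ _
  unfold ev at *
  unfold hom
  simp only [map_sum, map_mul, map_pow, map_prod, eval_C, e0, es]

lemma sum_le {n : ℕ} {P : MvPolynomial (Fin n) ℂ} {d : ℕ} (hP : P.totalDegree ≤ d) {α : Fin n →₀ ℕ}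
    (hα : α ∈ P.support) : ∑ i, α i ≤ d := by
  have h := le_totalDegree hα
  rw [Finsupp.sum_fintype _ _ (fun _ => rfl)] at h
  exact h.trans hP

lemma ev_hom_ball {n : ℕ} {A : (ℂ × V n) →ₗ[ℂ] (ℂ × V n)} {P : MvPolynomial (Fin n) ℂ} {d : ℕ} {z : V n}
    (ha : (A (1, z)).1 ≠ 0) (hP : P.totalDegree ≤ d) :
    ev (hom A P d) z = (A (1, z)).1 ^ d * ev P (frac A z) := by
  rw [ev_hom]
  unfold ev
  rw [eval_eq', Finset.mul_sum]
  refine Finset.sum_congr rfl fun α hα => ?_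
  have hs := sum_le hP hα
  set a := (A (1, z)).1 with ha'
  have h1 : ∀ i : Fin n, frac A z i = a⁻¹ * (A (1, z)).2 i := fun i => rfl
  have h2 : ∏ i : Fin n, frac A z i ^ α i = (a⁻¹) ^ (∑ i, α i) * ∏ i : Fin n, ((A (1, z)).2 i) ^ α i := by
    rw [← Finset.prod_pow_eq_pow_sum, ← Finset.prod_mul_distrib]
    refine Finset.prod_congr rfl fun i _ => ?_
    rw [h1, mul_pow]
  have h3 : a ^ d = a ^ (d - ∑ i, α i) * a ^ (∑ i, α i) := by
    rw [← pow_add, Nat.sub_add_cancel hs]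
  have h4 : a ^ (∑ i, α i) * (a⁻¹) ^ (∑ i, α i) = 1 := by
    rw [← mul_pow, mul_inv_cancel₀ ha, one_pow]
  rw [h2, h3]
  calc coeff α P * a ^ (d - ∑ i, α i) * ∏ i : Fin n, ((A (1, z)).2 i) ^ α i
      = a ^ (d - ∑ i, α i) * (a ^ (∑ i, α i) * (a⁻¹) ^ (∑ i, α i)) * (coeff α P *
        ∏ i : Fin n, ((A (1, z)).2 i) ^ α i) := by rw [h4]; ring
    _ = _ := by ring

lemma norm_one_z {n : ℕ} {z : V n} (hz : 1 ≤ ‖z‖) : ‖((1 : ℂ), z)‖ = ‖z‖ := by
  rw [Prod.norm_def]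
  simp [hz]

lemma ev_hom_bound {n : ℕ} (A : (ℂ × V n) →ₗ[ℂ] (ℂ × V n)) (P : MvPolynomial (Fin n) ℂ) (d : ℕ)
    (hP : P.totalDegree ≤ d) : ∃ K : ℝ, 0 ≤ K ∧ ∀ z : V n, 1 ≤ ‖z‖ → ‖ev (hom A P d) z‖ ≤ K * ‖z‖ ^ d := by
  set K := ‖LinearMap.toContinuousLinearMap A‖ with hK
  have hK0 : 0 ≤ K := norm_nonneg _
  refine ⟨(∑ α ∈ P.support, ‖coeff α P‖) * K ^ d, by positivity, fun z hz => ?_⟩
  have hb : ‖A (1, z)‖ ≤ K * ‖z‖ := by
    have := (LinearMap.toContinuousLinearMap A).le_opNorm (1, z)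
    rw [norm_one_z hz] at this
    exact this
  have h0 : ‖(A (1, z)).1‖ ≤ K * ‖z‖ := (norm_fst_le _).trans hb
  have hi : ∀ i, ‖(A (1, z)).2 i‖ ≤ K * ‖z‖ := fun i =>
    ((PiLp.norm_apply_le (A (1, z)).2 i).trans (norm_snd_le _)).trans hb
  have hKz : 0 ≤ K * ‖z‖ := by positivity
  rw [ev_hom]
  calc ‖∑ α ∈ P.support, coeff α P * (A (1, z)).1 ^ (d - ∑ i, α i) *
      ∏ i : Fin n, ((A (1, z)).2 i) ^ α i‖ ≤ ∑ α ∈ P.support, ‖coeff α P * (A (1, z)).1 ^ (d - ∑ i, α i) *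
      ∏ i : Fin n, ((A (1, z)).2 i) ^ α i‖ := norm_sum_le _ _
    _ ≤ ∑ α ∈ P.support, ‖coeff α P‖ * (K * ‖z‖) ^ d := by
        refine Finset.sum_le_sum fun α hα => ?_
        have hs := sum_le hP hα
        rw [norm_mul, norm_mul, norm_pow, norm_prod, mul_assoc]
        refine mul_le_mul_of_nonneg_left ?_ (norm_nonneg _)
        have h5 : (K * ‖z‖) ^ d = (K * ‖z‖) ^ (d - ∑ i, α i) * ∏ i : Fin n, (K * ‖z‖) ^ α i := by
          rw [Finset.prod_pow_eq_pow_sum, ← pow_add, Nat.sub_add_cancel hs]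
        rw [h5]
        refine mul_le_mul (pow_le_pow_left₀ (norm_nonneg _) h0 _) ?_
          (Finset.prod_nonneg fun i _ => norm_nonneg _) (pow_nonneg hKz _)
        refine Finset.prod_le_prod (fun i _ => norm_nonneg _) fun i _ => ?_
        rw [norm_pow]
        exact pow_le_pow_left₀ (norm_nonneg _) (hi i) _
    _ = (∑ α ∈ P.support, ‖coeff α P‖) * K ^ d * ‖z‖ ^ d := by
        rw [← Finset.sum_mul, mul_pow]
        ring

/-- identity theorem -/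
lemma eq_of_ball {n : ℕ} {P Q : MvPolynomial (Fin n) ℂ} (h : ∀ z ∈ Bn n, ev P z = ev Q z) : P = Q := by
  have hpos : (0 : ℝ) < 1 / (n + 1) := by positivity
  refine MvPolynomial.funext_set (fun _ => Metric.ball (0 : ℂ) (1 / (n + 1))) (fun _ => ?_) (fun x hx => ?_)
  · exact infinite_of_mem_nhds (0 : ℂ) (Metric.ball_mem_nhds _ hpos)
  · have hx' : ∀ i, ‖x i‖ < 1 / (n + 1) := fun i => by
      have := hx i (Set.mem_univ i)
      simpa using this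
    have hz : (WithLp.toLp 2 x : V n) ∈ Bn n := by
      change ‖(WithLp.toLp 2 x : V n)‖ < 1
      have h1 : ‖(WithLp.toLp 2 x : V n)‖ ^ 2 ≤ n * (1 / (n + 1)) ^ 2 := by
        rw [EuclideanSpace.norm_sq_eq]
        calc ∑ i, ‖(WithLp.toLp 2 x : V n) i‖ ^ 2 ≤ ∑ _i : Fin n, (1 / ((n : ℝ) + 1)) ^ 2 :=
              Finset.sum_le_sum fun i _ => pow_le_pow_left₀ (norm_nonneg _) (hx' i).le 2
          _ = n * (1 / (n + 1)) ^ 2 := by simp
      have h2 : (n : ℝ) * (1 / (n + 1)) ^ 2 < 1 := by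
        rw [div_pow, one_pow, mul_one_div, div_lt_one (by positivity)]
        nlinarith [(Nat.cast_nonneg n : (0 : ℝ) ≤ n)]
      by_contra hcon
      push Not at hcon
      nlinarith [norm_nonneg (WithLp.toLp 2 x : V n)]
    exact h _ hz

lemma eq_of_ev {n : ℕ} {P Q : MvPolynomial (Fin n) ℂ} (h : ∀ z : V n, ev P z = ev Q z) : P = Q :=
  eq_of_ball fun z _ => h z

lemma diff_ev {n : ℕ} (P : MvPolynomial (Fin n) ℂ) : Differentiable ℂ (fun z : V n => ev P z) := by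
  unfold ev
  induction P using MvPolynomial.induction_on with
  | C a => simp
  | add p q hp hq =>
    simp only [map_add]
    exact hp.add hq
  | mul_X p i hp =>
    simp only [map_mul, eval_X]
    exact hp.mul (EuclideanSpace.proj (𝕜 := ℂ) i : V n →L[ℂ] ℂ).differentiable

theorem t_LAM (h1 : S_UFD) (h2 : S_PRES) : S_LAM := by
  intro n N k f A B c0 hn hc0 hq hdeg hA hB hmap hlow
  obtain ⟨⟨B', hB', hB1, hB2⟩, hBball⟩ := h2 N B hB
  obtain ⟨-, hAball⟩ := h2 n A hA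
  have hdp : ∀ i, (f.p i).totalDegree ≤ k + 1 := fun i => by
    rw [← hdeg]
    exact (Finset.le_sup (f := fun i => (f.p i).totalDegree) (Finset.mem_univ i)).trans (le_max_right _ _)
  have hdq : f.q.totalDegree ≤ k + 1 := by
    rw [← hdeg]
    exact le_max_left _ _
  have hevq : ∀ z : V n, ev f.q z = 1 := fun z => by
    rw [hq]
    simp [ev]
  have hF : ∀ z : V n, f.F z = (1, f.map z) := fun z => by
    unfold RSM.F RSM.map
    simp only [hevq, div_one]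
  let L : Fin (N + 1) → MvPolynomial (Fin n) ℂ :=
    Fin.cons (hom A f.q (k + 1)) (fun i => hom A (f.p i) (k + 1))
  let R : Fin (N + 1) → MvPolynomial (Fin n) ℂ := fun i => rp f (cl i ∘ₗ B)
  have hL : ∀ i, ∀ z ∈ Bn n, ev (L i) z = (A (1, z)).1 ^ (k + 1) * cp (f.F (frac A z)) i := by
    intro i z hz
    have ha := (hAball z hz).1
    refine Fin.cases ?_ (fun j => ?_) i
    · exact ev_hom_ball ha hdq
    · exact ev_hom_ball ha (hdp j)
  have hR : ∀ i z, ev (R i) z = cp (B (f.F z)) i := fun i z => ev_rp f _ z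
  have hball : ∀ z ∈ Bn n, f.map z ∈ Bn N := by
    intro z hz
    change ‖f.map z‖ < 1
    have h3 := f.maps z hz
    rw [hevq, norm_one, one_pow] at h3
    have h4 : ‖f.map z‖ ^ 2 = ∑ i, ‖ev (f.p i) z‖ ^ 2 := by
      rw [EuclideanSpace.norm_sq_eq]
      unfold RSM.map
      simp only [hevq, div_one]
    rw [← h4] at h3
    by_contra hcon
    push Not at hcon
    nlinarith [norm_nonneg (f.map z)]
  have hprop : ∀ z ∈ Bn n, ∃ b : ℂ, B (f.F z) = b • f.F (frac A z) := by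
    intro z hz
    have h3 := (hBball (f.map z) (hball z hz)).2.2.1
    refine ⟨(B (1, f.map z)).1, ?_⟩
    rw [hF z, hF (frac A z), hmap z hz]
    exact h3
  have hLR : ∀ i j, L i * R j = L j * R i := by
    intro i j
    refine eq_of_ball fun z hz => ?_
    obtain ⟨b, hb⟩ := hprop z hz
    have e : ∀ P Q : MvPolynomial (Fin n) ℂ, ev (P * Q) z = ev P z * ev Q z := fun P Q => by
      simp [ev]
    rw [e, e, hL i z hz, hL j z hz, hR, hR, hb, cp_smul, cp_smul]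
    ring
  have hone : (1 : MvPolynomial (Fin n) ℂ) = C ((cl 0 ∘ₗ B') (1, 0)) * R 0 +
      ∑ j : Fin N, C ((cl 0 ∘ₗ B') (0, EuclideanSpace.single j 1)) * R j.succ := by
    refine eq_of_ev fun z => ?_
    have h3 := expand (cl 0 ∘ₗ B') (B (f.F z))
    have h4 : (cl 0 ∘ₗ B') (B (f.F z)) = 1 := by
      have h5 : B' (B (f.F z)) = f.F z := by
        have := LinearMap.congr_fun hB1 (f.F z)
        simpa using this
      change cp (B' (B (f.F z))) 0 = 1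
      rw [h5, cp_zero]
      exact hevq z
    have e : ev (C ((cl 0 ∘ₗ B') (1, 0)) * R 0 +
      ∑ j : Fin N, C ((cl 0 ∘ₗ B') (0, EuclideanSpace.single j 1)) * R j.succ) z =
      (cl 0 ∘ₗ B') (1, 0) * ev (R 0) z +
      ∑ j : Fin N, (cl 0 ∘ₗ B') (0, EuclideanSpace.single j 1) * ev (R j.succ) z := by
      unfold ev
      simp only [map_add, map_sum, map_mul, eval_C]
    have e1 : ev (1 : MvPolynomial (Fin n) ℂ) z = 1 := by simp [ev]
    rw [e, e1]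
    refine h4.symm.trans (h3.trans ?_)
    congr 1
    · rw [hR, cp_zero]
    · exact Finset.sum_congr rfl fun j _ => by rw [hR, cp_succ]
  obtain ⟨lam, hlam⟩ := h1 n (N + 1) L R hLR (fun r hr => by
    refine isUnit_of_dvd_one ?_
    rw [hone]
    exact dvd_add (Dvd.dvd.mul_left (hr 0) _) (Finset.dvd_sum fun j _ => Dvd.dvd.mul_left (hr _) _))
  have hlam' : ∀ i z, ev (L i) z = ev lam z * ev (R i) z := fun i z => by
    rw [hlam i]
    simp [ev]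
  -- bound of the left side
  have hLb : ∀ i, ∃ K : ℝ, 0 ≤ K ∧ ∀ z : V n, 1 ≤ ‖z‖ → ‖ev (L i) z‖ ≤ K * ‖z‖ ^ (k + 1) := by
    intro i
    refine Fin.cases ?_ (fun j => ?_) i
    · exact ev_hom_bound A f.q (k + 1) hdq
    · exact ev_hom_bound A (f.p j) (k + 1) (hdp j)
  choose K hK0 hK using hLb
  set S : ℝ := ∑ i, K i ^ 2 with hS
  have hS0 : 0 ≤ S := Finset.sum_nonneg fun i _ => sq_nonneg _
  set b : ℝ := ‖LinearMap.toContinuousLinearMap B'‖ with hb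
  have hb0 : 0 ≤ b := norm_nonneg _
  have hout : ∀ z : V n, 1 ≤ ‖z‖ → ‖ev lam z‖ ^ 2 ≤ 2 * b ^ 2 * S / c0 := by
    intro z hz
    have hz0 : (0 : ℝ) < ‖z‖ ^ (2 * (k + 1)) := by positivity
    have g1 : ‖ev lam z‖ ^ 2 * ∑ i, ‖cp (B (f.F z)) i‖ ^ 2 ≤ S * ‖z‖ ^ (2 * (k + 1)) := by
      rw [Finset.mul_sum, hS, Finset.sum_mul]
      refine Finset.sum_le_sum fun i _ => ?_
      have g2 : ‖ev lam z‖ ^ 2 * ‖cp (B (f.F z)) i‖ ^ 2 = ‖ev (L i) z‖ ^ 2 := by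
        rw [hlam' i z, hR, norm_mul, mul_pow]
      rw [g2]
      calc ‖ev (L i) z‖ ^ 2 ≤ (K i * ‖z‖ ^ (k + 1)) ^ 2 := pow_le_pow_left₀ (norm_nonneg _) (hK i z hz) 2
        _ = K i ^ 2 * ‖z‖ ^ (2 * (k + 1)) := by rw [mul_pow, ← pow_mul, mul_comm (k + 1) 2]
    have g3 : ‖f.F z‖ ≤ b * ‖B (f.F z)‖ := by
      have := (LinearMap.toContinuousLinearMap B').le_opNorm (B (f.F z))
      have h5 : B' (B (f.F z)) = f.F z := by
        have := LinearMap.congr_fun hB1 (f.F z)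
        simpa using this
      have h6 : (LinearMap.toContinuousLinearMap B') (B (f.F z)) = B' (B (f.F z)) := rfl
      rw [h6, h5] at this
      exact this
    have g4 : c0 * ‖z‖ ^ (2 * (k + 1)) ≤ 2 * ‖f.F z‖ ^ 2 := by
      refine (hlow z hz).trans ?_
      have h7 : ‖(f.F z).1‖ = 1 := by rw [hF]; simp
      have h8 : ∑ i, ‖ev (f.p i) z‖ ^ 2 = ‖(f.F z).2‖ ^ 2 := by
        rw [EuclideanSpace.norm_sq_eq]
        rfl
      have h9 : (1 : ℝ) ≤ ‖f.F z‖ ^ 2 := by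
        have := norm_fst_le (f.F z)
        rw [h7] at this
        nlinarith
      have h10 : ‖(f.F z).2‖ ^ 2 ≤ ‖f.F z‖ ^ 2 := pow_le_pow_left₀ (norm_nonneg _) (norm_snd_le _) 2
      rw [h8]
      linarith
    have g5 : ‖f.F z‖ ^ 2 ≤ b ^ 2 * ∑ i, ‖cp (B (f.F z)) i‖ ^ 2 := by
      calc ‖f.F z‖ ^ 2 ≤ (b * ‖B (f.F z)‖) ^ 2 := pow_le_pow_left₀ (norm_nonneg _) g3 2
        _ = b ^ 2 * ‖B (f.F z)‖ ^ 2 := by rw [mul_pow]
        _ ≤ _ := mul_le_mul_of_nonneg_left (norm_sq_le _) (sq_nonneg _)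
    rw [le_div_iff₀ hc0]
    have g6 : ‖ev lam z‖ ^ 2 * (c0 * ‖z‖ ^ (2 * (k + 1))) ≤ 2 * b ^ 2 * (S * ‖z‖ ^ (2 * (k + 1))) := by
      calc ‖ev lam z‖ ^ 2 * (c0 * ‖z‖ ^ (2 * (k + 1))) ≤ ‖ev lam z‖ ^ 2 * (2 * (b ^ 2 * ∑ i, ‖cp (B (f.F z)) i‖ ^ 2)) :=
            mul_le_mul_of_nonneg_left (by linarith) (sq_nonneg _)
        _ = 2 * b ^ 2 * (‖ev lam z‖ ^ 2 * ∑ i, ‖cp (B (f.F z)) i‖ ^ 2) := by ring
        _ ≤ _ := mul_le_mul_of_nonneg_left g1 (by positivity)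
    have g7 : (‖ev lam z‖ ^ 2 * c0) * ‖z‖ ^ (2 * (k + 1)) ≤ (2 * b ^ 2 * S) * ‖z‖ ^ (2 * (k + 1)) := by
      calc _ = ‖ev lam z‖ ^ 2 * (c0 * ‖z‖ ^ (2 * (k + 1))) := by ring
        _ ≤ _ := g6
        _ = _ := by ring
    exact le_of_mul_le_mul_right g7 hz0
  obtain ⟨M, hM⟩ := (isCompact_closedBall (0 : V n) 1).exists_bound_of_continuousOn
    (diff_ev lam).continuous.continuousOn
  have hbdd : Bornology.IsBounded (Set.range fun z : V n => ev lam z) := by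
    rw [isBounded_iff_forall_norm_le]
    refine ⟨max M (Real.sqrt (2 * b ^ 2 * S / c0)), ?_⟩
    rintro _ ⟨z, rfl⟩
    rcases le_total ‖z‖ 1 with h | h
    · exact (hM z (by simpa using h)).trans (le_max_left _ _)
    · exact (Real.le_sqrt_of_sq_le (hout z h)).trans (le_max_right _ _)
  refine ⟨ev lam 0, fun z hz => cp_ext fun i => ?_⟩
  have hc : ev lam z = ev lam 0 := (diff_ev lam).apply_eq_apply_of_bounded hbdd z 0
  rw [cp_smul, cp_smul, ← hL i z hz, hlam' i z, hR, hc]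

end Pool.Agent.H28.RS
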